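import Pool.Agent.Helper94.LG.Sheet3
import Pool.Agent.Helper13.LG.CNT3
open MeasureTheory Metric Set Filter Topology
open scoped ENNReal NNReal

/-!
# LG row EX_CNT3: small balls contain the radius of every end of an edge, general terminals
-/

namespace H11ST
namespace LG

variable {d n : ℕ}

theorem ecnt3_tree (p : Fin n → E d) (y : E d) (t : BT (Fin n) (E d)) : ∃ ε0 : ℝ, 0 < ε0 ∧
    ∀ ε : ℝ, 0 < ε → ε ≤ ε0 → (ggn p y t : ℝ) * ε ≤ t.esum p (ml (ball y ε)) := by
  induction t with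
  | leaf i =>
    refine ⟨1, one_pos, fun ε _ _ => ?_⟩
    simp [ggn, BT.esum]
  | node z l r hl hr =>
    obtain ⟨e1, h1, H1⟩ := hl
    obtain ⟨e2, h2, H2⟩ := hr
    obtain ⟨e3, h3, H3⟩ := cnt3_edge y z (l.pos p)
    obtain ⟨e4, h4, H4⟩ := cnt3_edge y z (r.pos p)
    refine ⟨min (min e1 e2) (min e3 e4), lt_min (lt_min h1 h2) (lt_min h3 h4),
      fun ε hε hle => ?_⟩
    have a1 := H1 ε hε (hle.trans ((min_le_left _ _).trans (min_le_left _ _)))
    have a2 := H2 ε hε (hle.trans ((min_le_left _ _).trans (min_le_right _ _)))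
    have a3 := H3 ε hε (hle.trans ((min_le_right _ _).trans (min_le_left _ _)))
    have a4 := H4 ε hε (hle.trans ((min_le_right _ _).trans (min_le_right _ _)))
    simp only [ggn, BT.esum, Nat.cast_add]
    nlinarith

/-- (EX_CNT3) -/
theorem ex_cnt3 : EX_CNT3 := by
  intro d n p i0 t y
  obtain ⟨e1, h1, H1⟩ := ecnt3_tree p y t
  obtain ⟨e2, h2, H2⟩ := cnt3_edge y (p i0) (t.pos p)
  refine ⟨min e1 e2, lt_min h1 h2, fun ε hε hle => ?_⟩
  have a1 := H1 ε hε (hle.trans (min_le_left _ _))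
  have a2 := H2 ε hε (hle.trans (min_le_right _ _))
  unfold gtot
  rw [Nat.cast_add, add_mul]
  linarith

end LG
end H11ST
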