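import Pool.Agent.Helper94.LG.Sheet2
open MeasureTheory Metric Set Filter Topology
open scoped ENNReal NNReal

/-!
# LG row CNT2: lengths of the edges inside a measurable set
-/

namespace H11ST
namespace LG

variable {d : ℕ}

theorem cnt2_seg (a b : E d) : μH[1] (segment ℝ a b) = ENNReal.ofReal (dist a b) := by
  rw [hausdorffMeasure_segment, edist_dist]

theorem cnt2_fin (a b : E d) (B : Set (E d)) : μH[1] (segment ℝ a b ∩ B) ≠ ∞ := by
  refine ne_top_of_le_ne_top ?_ (measure_mono inter_subset_left)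
  rw [cnt2_seg]
  exact ENNReal.ofReal_ne_top

theorem cnt2_ofReal (a b : E d) (B : Set (E d)) :
    ENNReal.ofReal (ml B a b) = μH[1] (segment ℝ a b ∩ B) :=
  ENNReal.ofReal_toReal (cnt2_fin a b B)

theorem cnt2_nonneg (a b : E d) (B : Set (E d)) : 0 ≤ ml B a b := ENNReal.toReal_nonneg

theorem cnt2_split (a b : E d) {B : Set (E d)} (hB : MeasurableSet B) :
    ml B a b + ml Bᶜ a b = dist a b := by
  unfold ml
  rw [← ENNReal.toReal_add (cnt2_fin _ _ _) (cnt2_fin _ _ _), ← sdiff_eq,
    measure_inter_add_sdiff _ hB, cnt2_seg, ENNReal.toReal_ofReal dist_nonneg]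

theorem cnt2_esum_nonneg (p : Fin d → E d) (B : Set (E d)) (t : BT (Fin d) (E d)) :
    0 ≤ t.esum p (ml B) := by
  induction t with
  | leaf i => exact le_rfl
  | node z l r ihl ihr =>
    simp only [BT.esum]
    have h1 := cnt2_nonneg z (l.pos p) B
    have h2 := cnt2_nonneg z (r.pos p) B
    linarith

theorem cnt2_esum_split (p : Fin d → E d) {B : Set (E d)} (hB : MeasurableSet B)
    (t : BT (Fin d) (E d)) :
    t.esum p (ml B) + t.esum p (ml Bᶜ) = t.esum p dist := by
  induction t with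
  | leaf i => simp [BT.esum]
  | node z l r ihl ihr =>
    simp only [BT.esum]
    rw [← cnt2_split z (l.pos p) hB, ← cnt2_split z (r.pos p) hB, ← ihl, ← ihr]
    ring

theorem cnt2_carrier (p : Fin d → E d) (B : Set (E d)) (t : BT (Fin d) (E d)) :
    μH[1] (carrier p t ∩ B) ≤ ENNReal.ofReal (t.esum p (ml B)) := by
  induction t with
  | leaf i =>
    have h0 : μH[1] ({p i} : Set (E d)) = 0 := by
      have : NullSingletonClass (μH[1] : Measure (E d)) := Measure.nullSingletonClass_hausdorff _ one_pos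
      exact measure_singleton (p i)
    exact (measure_mono inter_subset_left).trans (h0.le.trans bot_le)
  | node z l r ihl ihr =>
    simp only [BT.esum, carrier]
    have n1 := cnt2_nonneg z (l.pos p) B
    have n2 := cnt2_nonneg z (r.pos p) B
    have n3 := cnt2_esum_nonneg p B l
    have n4 := cnt2_esum_nonneg p B r
    rw [ENNReal.ofReal_add (add_nonneg n1 n3) (add_nonneg n2 n4), ENNReal.ofReal_add n1 n3,
      ENNReal.ofReal_add n2 n4, cnt2_ofReal, cnt2_ofReal, union_inter_distrib_right,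
      union_inter_distrib_right, union_inter_distrib_right]
    refine (measure_union_le _ _).trans (add_le_add ?_ ?_)
    · exact (measure_union_le _ _).trans (add_le_add le_rfl ihl)
    · exact (measure_union_le _ _).trans (add_le_add le_rfl ihr)

theorem cnt2 : LG_CNT2 := by
  intro d i0 t hT B hB
  have n1 := cnt2_nonneg (tm d i0) (t.pos (tm d)) Bᶜ
  have n2 := cnt2_esum_nonneg (tm d) Bᶜ t
  have h1 : tot i0 (ml B) t + tot i0 (ml Bᶜ) t = tot i0 dist t := by
    unfold tot
    rw [← cnt2_split (tm d i0) (t.pos (tm d)) hB, ← cnt2_esum_split (tm d) hB t]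
    ring
  have h2 : μH[1] (tset i0 t ∩ Bᶜ) ≤ ENNReal.ofReal (tot i0 (ml Bᶜ) t) := by
    unfold tset tot
    rw [ENNReal.ofReal_add n1 n2, cnt2_ofReal, union_inter_distrib_right]
    exact (measure_union_le _ _).trans (add_le_add le_rfl (cnt2_carrier _ _ _))
  have h3 : (μH[1] (tset i0 t ∩ Bᶜ)).toReal ≤ tot i0 (ml Bᶜ) t := by
    refine ENNReal.toReal_le_of_le_ofReal ?_ h2
    unfold tot
    exact add_nonneg n1 n2
  have hfin : μH[1] (tset i0 t) ≠ ∞ := by
    rw [hT]
    exact ENNReal.ofReal_ne_top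
  have f1 : μH[1] (tset i0 t ∩ B) ≠ ∞ := ne_top_of_le_ne_top hfin (measure_mono inter_subset_left)
  have f2 : μH[1] (tset i0 t ∩ Bᶜ) ≠ ∞ := ne_top_of_le_ne_top hfin (measure_mono inter_subset_left)
  have h0 : 0 ≤ tot i0 dist t := by
    have : 0 ≤ tot i0 (ml B) t :=
      add_nonneg (cnt2_nonneg _ _ _) (cnt2_esum_nonneg _ _ _)
    have h6 : 0 ≤ tot i0 (ml Bᶜ) t := add_nonneg n1 n2
    linarith
  have h4 : (μH[1] (tset i0 t ∩ B)).toReal + (μH[1] (tset i0 t ∩ Bᶜ)).toReal =
      tot i0 dist t := by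
    rw [← ENNReal.toReal_add f1 f2, ← sdiff_eq, measure_inter_add_sdiff _ hB, hT,
      ENNReal.toReal_ofReal h0]
  linarith

end LG
end H11ST
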